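import Mathlib
import Pool.Agent.H16.Rb.Process

set_option autoImplicit false

namespace Pool.Agent.Results.MP_1e81c0_co.ConstantFactor

open Finset Pool.Agent.H16.Rb

/-- `w ≠ v` is the end of a rainbow directed path starting at `v`. -/
def Reach {V : Type} {k : ℕ} (E : Fin k → V → V → Prop) (v w : V) : Prop :=
  w ≠ v ∧ ∃ m : ℕ, ∃ x : Fin (m + 2) → V,
    Function.Injective x ∧ x 0 = v ∧ x (Fin.last (m + 1)) = w ∧
    ∃ ℓ : Fin (m + 1) → Fin k, Function.Injective ℓ ∧
      ∀ j : Fin (m + 1), E (ℓ j) (x j.castSucc) (x j.succ)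

/-- There is a rainbow directed cycle (of length at least 2). -/
def RainbowCycle {V : Type} {k : ℕ} (E : Fin k → V → V → Prop) : Prop :=
  ∃ m ≥ 2, ∃ x : Fin m → V, Function.Injective x ∧
    ∃ ℓ : Fin m → Fin k, Function.Injective ℓ ∧
      ∀ j : Fin m, E (ℓ j) (x j) (x (finRotate m j))

section

variable {V : Type} {k : ℕ} (E : Fin k → V → V → Prop)

/-- The number of labels carried by the ordered pair `(x, y)`. -/
noncomputable def labels (x y : V) : ℕ := by
  classical
  exact (univ.filter fun i : Fin k => E i x y).card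

variable {E}

theorem exists_sdr {x : ℕ → V} {ℓ : ℕ} (h : HallW (labels E) x ℓ) :
    ∃ f : Fin ℓ → Fin k, Function.Injective f ∧ ∀ j : Fin ℓ, E (f j) (x j) (x (j + 1)) := by
  classical
  set t : Fin ℓ → Finset (Fin k) := fun j => univ.filter fun i : Fin k => E i (x j) (x (j + 1))
    with ht
  have hHall : ∀ S : Finset (Fin ℓ), S.card ≤ (S.biUnion t).card := by
    intro S
    rcases S.eq_empty_or_nonempty with h0 | hne
    · rw [h0]; simp
    · obtain ⟨i₀, hi₀, hmax⟩ := exists_max_image S (fun j => (t j).card) hne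
      have h1 : (t i₀).card ≤ (S.biUnion t).card := card_le_card (subset_biUnion_of_mem t hi₀)
      have h2 : S.card ≤ cw (fun a b => labels E a b ≤ (t i₀).card) x ℓ := by
        unfold cw
        refine card_le_card_of_injOn (fun j : Fin ℓ => (j : ℕ)) ?_ ?_
        · intro j hj
          simp only [coe_filter, mem_range, Set.mem_ofPred_eq]
          refine ⟨j.isLt, ?_⟩
          have h3 := hmax j hj
          unfold labels
          rw [ht] at h3
          convert h3
        · intro a _ b _ hab
          exact Fin.ext hab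
      exact h2.trans ((h _).trans h1)
  obtain ⟨f, hf, hft⟩ := (all_card_le_biUnion_card_iff_exists_injective t).1 hHall
  refine ⟨f, hf, fun j => ?_⟩
  have := hft j
  rw [ht] at this
  exact (mem_filter.1 this).2

theorem cycle_of_walk (hloop : ∀ i v, ¬ E i v v)
    (h : ∃ (x : ℕ → V) (ℓ : ℕ), 0 < ℓ ∧ x 0 = x ℓ ∧ HallW (labels E) x ℓ) : RainbowCycle E := by
  obtain ⟨x, ℓ, hℓ, hx, hH⟩ := h
  obtain ⟨y, n, hn, hy, hHy, hinj⟩ := closed_simple _ x ℓ hℓ hx hH
  obtain ⟨f, hf, hE⟩ := exists_sdr hHy
  obtain ⟨n, rfl⟩ : ∃ n', n = n' + 1 := ⟨n - 1, by omega⟩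
  have hn2 : 2 ≤ n + 1 := by
    by_contra hcon
    have h0 : n = 0 := by omega
    subst h0
    have := hE 0
    simp only [Fin.val_zero, Nat.zero_add] at this
    rw [← hy] at this
    exact hloop _ _ this
  refine ⟨n + 1, hn2, fun i => y i, ?_, f, hf, ?_⟩
  · intro a b hab
    exact Fin.ext (hinj a a.isLt b b.isLt hab)
  · intro j
    have h1 := hE j
    by_cases hj : (j : ℕ) < n
    · have e : finRotate (n + 1) j = ⟨j + 1, by omega⟩ := by
        have := finRotate_of_lt hj
        exact this
      rw [e]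
      exact h1
    · have hjn : (j : ℕ) = n := by omega
      have e : finRotate (n + 1) j = ⟨0, by omega⟩ := by
        have : j = ⟨n, by omega⟩ := Fin.ext hjn
        rw [this]
        exact finRotate_last'
      rw [e]
      dsimp only
      rw [hy]
      rw [hjn] at h1 ⊢
      exact h1

theorem reach_of_walk {v w : V} (hne : w ≠ v)
    (h : ∃ (ℓ : ℕ) (x : ℕ → V), x 0 = v ∧ x ℓ = w ∧ HallW (labels E) x ℓ) : Reach E v w := by
  obtain ⟨ℓ, x, h0, h1, hH⟩ := h
  obtain ⟨y, n, hy0, hy1, hHy, hinj⟩ := path_simple _ v w x ℓ h0 h1 hH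
  obtain ⟨f, hf, hE⟩ := exists_sdr hHy
  have hn : n ≠ 0 := by
    intro h
    subst h
    exact hne (by rw [← hy0, ← hy1])
  obtain ⟨m, rfl⟩ : ∃ m, n = m + 1 := ⟨n - 1, by omega⟩
  refine ⟨hne, m, fun i => y i, ?_, hy0, hy1, f, hf, ?_⟩
  · intro a b hab
    exact Fin.ext (hinj a (by omega) b (by omega) hab)
  · intro j
    exact hE j

end

/-- **Theorem.** The rainbow second neighbourhood conjecture holds up to the constant factor
`67/5`, for every number `k` of arc sets: there is a rainbow directed cycle, or some vertex `v`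
has `∑_i outdeg_{E_i}(v) ≤ (67/5) |R(v)|`. -/
theorem result (V : Type) [Fintype V] [Nonempty V] (k : ℕ) (E : Fin k → V → V → Prop)
    (hloop : ∀ i v, ¬ E i v v) :
    RainbowCycle E ∨
    ∃ v : V, 5 * ∑ i : Fin k, Set.ncard {w : V | E i v w} ≤
      67 * Set.ncard {w : V | Reach E v w} := by
  classical
  by_cases hC : RainbowCycle E
  · exact Or.inl hC
  refine Or.inr ?_
  by_contra hcon
  push Not at hcon
  have hdeg : ∀ v, ∑ i : Fin k, Set.ncard {w : V | E i v w} = ∑ w, labels E v w := by
    intro v
    have e1 : ∀ i : Fin k, Set.ncard {w : V | E i v w} = ∑ w, if E i v w then 1 else 0 := by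
      intro i
      rw [Set.ncard_eq_toFinset_card', Finset.card_eq_sum_ones, ← Finset.sum_filter]
      congr 1
      ext w; simp
    have e2 : ∀ w : V, labels E v w = ∑ i : Fin k, if E i v w then 1 else 0 := by
      intro w
      unfold labels
      rw [Finset.card_eq_sum_ones, ← Finset.sum_filter]
    rw [sum_congr rfl fun i _ => e1 i, sum_congr rfl fun w _ => e2 w, sum_comm]
  refine hC (cycle_of_walk hloop ?_)
  have hJ : ∀ a b, labels E a b < 4 * 2 ^ k := by
    intro a b
    have h1 : labels E a b ≤ k := by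
      unfold labels
      exact (card_le_card (filter_subset _ _)).trans (by simp)
    have h2 : k < 2 ^ k := Nat.lt_two_pow_self
    omega
  refine part_two (labels E) k hJ ?_ (fun v => univ.filter fun w => Reach E v w) ?_ ?_
  · intro a
    unfold labels
    rw [card_eq_zero, filter_eq_empty_iff]
    intro i _
    exact hloop i a
  · intro v w hne hw
    rw [mem_filter]
    exact ⟨mem_univ _, reach_of_walk hne hw⟩
  · intro v
    have h1 := hcon v
    have e : Set.ncard {w : V | Reach E v w} = (univ.filter fun w => Reach E v w).card := by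
      rw [Set.ncard_eq_toFinset_card']
      congr 1
      ext w; simp
    rw [hdeg v, e] at h1
    exact h1

end Pool.Agent.Results.MP_1e81c0_co.ConstantFactor
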