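import Mathlib
import Pool.Agent.H51.RB.Main
import Pool.Agent.H51.RB.Tr

set_option autoImplicit false

namespace Pool.Agent.Results.MP_1e81c0_co.LargeMultiplicity

open Finset Pool.Agent.H51.RB

/-- `w ≠ v` is the end of a rainbow directed path starting at `v`, that is `w ∈ R(v)`. -/
def Reach {V : Type} {k : ℕ} (E : Fin k → V → V → Prop) (v w : V) : Prop :=
  w ≠ v ∧ ∃ m : ℕ, ∃ x : Fin (m + 2) → V,
    Function.Injective x ∧ x 0 = v ∧ x (Fin.last (m + 1)) = w ∧
    ∃ ℓ : Fin (m + 1) → Fin k, Function.Injective ℓ ∧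
      ∀ j : Fin (m + 1), E (ℓ j) (x j.castSucc) (x j.succ)

/-- There is a rainbow directed cycle (of length at least 2). -/
def RainbowCycle {V : Type} {k : ℕ} (E : Fin k → V → V → Prop) : Prop :=
  ∃ m ≥ 2, ∃ x : Fin m → V, Function.Injective x ∧
    ∃ ℓ : Fin m → Fin k, Function.Injective ℓ ∧
      ∀ j : Fin m, E (ℓ j) (x j) (x (finRotate m j))

/-- The multiplicity of the arc `(x, y)`: the number of `i` with `(x, y) ∈ E_i`. -/
noncomputable def mult {V : Type} {k : ℕ} (E : Fin k → V → V → Prop) (x y : V) : ℕ :=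
  Set.ncard {i : Fin k | E i x y}

/-- `∑_i` (out-degree of `v` in `E_i`, counting only arcs which lie in at least `L` of the sets
`E_1, ..., E_k`). -/
noncomputable def heavyDeg {V : Type} {k : ℕ} (E : Fin k → V → V → Prop) (L : ℕ) (v : V) : ℕ :=
  ∑ i : Fin k, Set.ncard {w : V | E i v w ∧ L ≤ mult E v w}

section

variable {V : Type} [Fintype V] {k : ℕ} (E : Fin k → V → V → Prop)

theorem heavyDeg_eq (L : ℕ) (v : V) :
    heavyDeg E L v = ∑ w : V, if L ≤ mult E v w then mult E v w else 0 := by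
  classical
  unfold heavyDeg
  have e1 : ∀ i : Fin k, Set.ncard {w : V | E i v w ∧ L ≤ mult E v w}
      = ∑ w : V, if E i v w ∧ L ≤ mult E v w then 1 else 0 := by
    intro i
    rw [Set.ncard_eq_toFinset_card', Finset.card_eq_sum_ones, ← Finset.sum_filter]
    congr 1
    ext w; simp
  rw [sum_congr rfl fun i _ => e1 i, sum_comm]
  refine sum_congr rfl fun w _ => ?_
  by_cases h : L ≤ mult E v w
  · rw [if_pos h]
    have e2 : mult E v w = (univ.filter fun i : Fin k => E i v w).card :=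
      Pool.Agent.H51.RB.mult_eq E v w
    have e3 : ∑ i : Fin k, (if E i v w ∧ L ≤ mult E v w then 1 else 0)
        = ∑ i : Fin k, if E i v w then 1 else 0 := by
      refine sum_congr rfl fun i _ => ?_
      by_cases hi : E i v w
      · rw [if_pos ⟨hi, h⟩, if_pos hi]
      · rw [if_neg (fun h' => hi h'.1), if_neg hi]
    rw [e3, e2, card_filter]
  · rw [if_neg h]
    exact sum_eq_zero fun i _ => if_neg fun h' => h h'.2

end

/-- **Theorem.** The rainbow second neighbourhood conjecture holds asymptotically for large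
multiplicities: for every `ε > 0` there is `L₀` such that for every `L ≥ L₀` and every system
`E_1, ..., E_k` there is a rainbow directed cycle, or every vertex `v` which minimises the heavy
out-degree `D_L(v)` (only arcs which lie in at least `L` of the sets are counted) satisfies
`|R(v)| ≥ (1 - ε) D_L(v)`. -/
theorem result (ε : ℝ) (hε : 0 < ε) : ∃ L₀ : ℕ, ∀ L ≥ L₀, ∀ (V : Type) [Fintype V]
    (k : ℕ) (E : Fin k → V → V → Prop), (∀ i v, ¬ E i v v) →
    RainbowCycle E ∨
    ∀ v : V, (∀ u : V, heavyDeg E L v ≤ heavyDeg E L u) →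
      (1 - ε) * (heavyDeg E L v : ℝ) ≤ (Set.ncard {w : V | Reach E v w} : ℝ) := by
  classical
  obtain ⟨L₀, hL₀⟩ := main_mult (min ε 1) (lt_min hε one_pos) (min_le_right _ _)
  refine ⟨L₀, fun L hL V _ k E hloop => ?_⟩
  by_cases hC : RainbowCycle E
  · exact Or.inl hC
  refine Or.inr ?_
  obtain ⟨m, hm⟩ : ∃ m : V → V → ℕ, ∀ v w, m v w = if L ≤ mult E v w then mult E v w else 0 :=
    ⟨_, fun _ _ => rfl⟩
  have hmpos : ∀ v w, 0 < m v w → mult E v w = m v w := by
    intro v w h
    rw [hm] at h ⊢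
    split_ifs at h ⊢ with h1
    · rfl
    · omega
  have hm0 : ∀ v, m v v = 0 := by
    intro v
    have : mult E v v = 0 := by
      unfold mult
      rw [Set.ncard_eq_zero]
      ext i
      simp only [Set.mem_ofPred_eq, Set.mem_empty_iff_false, iff_false]
      exact hloop i v
    rw [hm, this]
    simp
  have hbig : ∀ v w, m v w = 0 ∨ L ≤ m v w := by
    intro v w
    rw [hm]
    split_ifs with h1
    · exact Or.inr h1
    · exact Or.inl rfl
  have hdeg : ∀ v, heavyDeg E L v = ∑ w, m v w := by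
    intro v
    rw [heavyDeg_eq]
    exact sum_congr rfl fun w _ => (hm v w).symm
  have hhall : ∀ (v w : V) (l : List ℕ), Wk m univ v w l → (∀ τ, cn l τ ≤ τ) →
      ∃ x : ℕ → V, x 0 = v ∧ x l.length = w ∧
        Pool.Agent.H16.Rb.HallW (Pool.Agent.H51.RB.mult E) x l.length := by
    intro v w l h1 h2
    obtain ⟨x, h3, h4, h5⟩ := fun_of_wk _ _ (h1.congr (m' := Pool.Agent.H51.RB.mult E) hmpos)
    refine ⟨x, h3, h4, fun τ => ?_⟩
    rw [h5 τ]
    exact h2 τ
  have hac : ∀ v l, Wk m univ v v l → l ≠ [] → ¬ ∀ τ, cn l τ ≤ τ := by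
    intro v l h1 h2 h3
    obtain ⟨x, h4, h5, h6⟩ := hhall v v l h1 h3
    refine hC ?_
    exact Pool.Agent.H51.RB.cycle_of_walk hloop
      ⟨x, l.length, List.length_pos_iff.2 h2, by rw [h4, h5], h6⟩
  have part1 : ∀ v : V, (∀ u : V, heavyDeg E L v ≤ heavyDeg E L u) →
      (1 - min ε 1) * (heavyDeg E L v : ℝ) ≤ (Set.ncard {w : V | Reach E v w} : ℝ) := by
    intro v hv
    obtain ⟨R, hR⟩ : ∃ R : Finset V, ∀ w, w ∈ R ↔ ∃ l, Wk m univ v w l ∧ ∀ τ, cn l τ ≤ τ :=
      ⟨univ.filter fun w => ∃ l, Wk m univ v w l ∧ ∀ τ, cn l τ ≤ τ, fun w => by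
        rw [mem_filter]
        exact ⟨fun h => h.2, fun h => ⟨mem_univ _, h⟩⟩⟩
    have h1 := hL₀ L hL V m hm0 hbig hac v (fun u => by rw [← hdeg, ← hdeg]; exact hv u) R hR
    rw [← hdeg] at h1
    refine h1.trans ?_
    have h2 : Set.ncard {w : V | Reach E v w} = (univ.filter fun w => Reach E v w).card := by
      rw [Set.ncard_eq_toFinset_card']
      congr 1
      ext w; simp
    have h3 : R ⊆ insert v (univ.filter fun w => Reach E v w) := by
      intro w hw
      rw [mem_insert, mem_filter]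
      by_cases hwv : w = v
      · exact Or.inl hwv
      · refine Or.inr ⟨mem_univ _, ?_⟩
        obtain ⟨l, h4, h5⟩ := (hR w).1 hw
        obtain ⟨x, h6, h7, h8⟩ := hhall v w l h4 h5
        exact Pool.Agent.H51.RB.reach_of_walk hwv ⟨l.length, x, h6, h7, h8⟩
    have h4 : R.card ≤ (univ.filter fun w => Reach E v w).card + 1 :=
      (card_le_card h3).trans (card_insert_le _ _)
    rw [h2]
    have h5 : (R.card : ℝ) ≤ ((univ.filter fun w => Reach E v w).card : ℝ) + 1 := by
      exact_mod_cast h4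
    linarith
  have hmin1 : min ε 1 ≤ ε := min_le_left _ _
  intro v hv
  refine le_trans ?_ (part1 v hv)
  exact mul_le_mul_of_nonneg_right (by linarith) (Nat.cast_nonneg _)

end Pool.Agent.Results.MP_1e81c0_co.LargeMultiplicity
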