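import Mathlib
import Pool.Agent.H16.Rb.Strategy

set_option autoImplicit false

namespace Pool.Agent.Results.MP_1e81c0_co.QuasiTransitive

open Finset Pool.Agent.H16.Rb

/-- The number of labels carried by the ordered pair `(x, y)`: the number of `i` with
`(x, y) ∈ E_i`. -/
noncomputable def labels {V : Type} {k : ℕ} (E : Fin k → V → V → Prop) (x y : V) : ℕ :=
  Set.ncard {i : Fin k | E i x y}

/-- `w ≠ v` is the end of a rainbow directed path starting at `v`. -/
def Reach {V : Type} {k : ℕ} (E : Fin k → V → V → Prop) (v w : V) : Prop :=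
  w ≠ v ∧ ∃ m : ℕ, ∃ x : Fin (m + 2) → V,
    Function.Injective x ∧ x 0 = v ∧ x (Fin.last (m + 1)) = w ∧
    ∃ ℓ : Fin (m + 1) → Fin k, Function.Injective ℓ ∧
      ∀ j : Fin (m + 1), E (ℓ j) (x j.castSucc) (x j.succ)

/-- There is a rainbow directed cycle (of length at least 2). -/
def RainbowCycle {V : Type} {k : ℕ} (E : Fin k → V → V → Prop) : Prop :=
  ∃ m ≥ 2, ∃ x : Fin m → V, Function.Injective x ∧
    ∃ ℓ : Fin m → Fin k, Function.Injective ℓ ∧
      ∀ j : Fin m, E (ℓ j) (x j) (x (finRotate m j))

section

variable {V : Type} {k : ℕ} {E : Fin k → V → V → Prop}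

theorem exists_ne_label {x y : V} (h : 2 ≤ labels E x y) (j : Fin k) : ∃ i, i ≠ j ∧ E i x y := by
  have h1 : 1 < Set.ncard {i : Fin k | E i x y} := h
  obtain ⟨a, ha, haj⟩ := Set.exists_ne_of_one_lt_ncard h1 j
  exact ⟨a, haj, ha⟩

theorem exists_ne_ne_label {x y : V} (h : 3 ≤ labels E x y) (j j' : Fin k) :
    ∃ i, i ≠ j ∧ i ≠ j' ∧ E i x y := by
  classical
  have h1 : 1 < Set.ncard ({i : Fin k | E i x y} \ {j'}) := by
    by_cases hm : j' ∈ {i : Fin k | E i x y}
    · have := Set.ncard_sdiff_singleton_add_one hm (Set.toFinite _)
      have h3 : 3 ≤ Set.ncard {i : Fin k | E i x y} := h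
      omega
    · rw [Set.sdiff_singleton_eq_self hm]
      have h3 : 3 ≤ Set.ncard {i : Fin k | E i x y} := h
      omega
  obtain ⟨a, ha, haj⟩ := Set.exists_ne_of_one_lt_ncard h1 j
  exact ⟨a, haj, fun h => ha.2 (by simp [h]), ha.1⟩

theorem labels_pos {x y : V} {i : Fin k} (h : E i x y) : 1 ≤ labels E x y := by
  have : 0 < Set.ncard {i : Fin k | E i x y} := (Set.ncard_pos (Set.toFinite _)).2 ⟨i, h⟩
  exact this

theorem labels_eq_zero {x y : V} (h : ∀ i, ¬ E i x y) : labels E x y = 0 := by
  have : {i : Fin k | E i x y} = ∅ := by
    ext i; simp [h i]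
  simp [labels, this]

theorem exists_label {x y : V} (h : 1 ≤ labels E x y) : ∃ i, E i x y := by
  by_contra hc
  push Not at hc
  rw [labels_eq_zero hc] at h
  omega

theorem reach_one {x y : V} (hxy : y ≠ x) {i : Fin k} (h : E i x y) : Reach E x y := by
  refine ⟨hxy, 0, ![x, y], ?_, rfl, rfl, ![i], ?_, ?_⟩
  · intro a b hab
    fin_cases a <;> fin_cases b <;> simp_all
  · intro a b _
    exact Fin.ext (by have := a.isLt; have := b.isLt; omega)
  · intro j
    fin_cases j
    simpa using h

theorem reach_two {x y z : V} (hxy : y ≠ x) (hxz : z ≠ x) (hyz : z ≠ y) {i j : Fin k}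
    (hij : i ≠ j) (h1 : E i x y) (h2 : E j y z) : Reach E x z := by
  refine ⟨hxz, 1, ![x, y, z], ?_, rfl, rfl, ![i, j], ?_, ?_⟩
  · intro a b hab
    fin_cases a <;> fin_cases b <;> simp_all
  · intro a b hab
    fin_cases a <;> fin_cases b <;> simp_all
  · intro j
    fin_cases j
    · simpa using h1
    · simpa using h2

theorem cycle_two {x y : V} (hxy : y ≠ x) {i j : Fin k} (hij : i ≠ j) (h1 : E i x y)
    (h2 : E j y x) : RainbowCycle E := by
  refine ⟨2, le_rfl, ![x, y], ?_, ![i, j], ?_, ?_⟩
  · intro a b hab
    fin_cases a <;> fin_cases b <;> simp_all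
  · intro a b hab
    fin_cases a <;> fin_cases b <;> simp_all
  · intro j
    fin_cases j
    · simpa using h1
    · simpa using h2

theorem cycle_three {x y z : V} (hxy : y ≠ x) (hxz : z ≠ x) (hyz : z ≠ y) {a b c : Fin k}
    (hab : a ≠ b) (hac : a ≠ c) (hbc : b ≠ c) (h1 : E a x y) (h2 : E b y z) (h3 : E c z x) :
    RainbowCycle E := by
  refine ⟨3, by norm_num, ![x, y, z], ?_, ![a, b, c], ?_, ?_⟩
  · intro a b hab
    fin_cases a <;> fin_cases b <;> simp_all
  · intro a b hab
    fin_cases a <;> fin_cases b <;> simp_all
  · intro j
    have e0 : finRotate 3 0 = 1 := by decide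
    have e1 : finRotate 3 1 = 2 := by decide
    have e2 : finRotate 3 2 = 0 := by decide
    fin_cases j
    · simpa [e0] using h1
    · simpa [e1] using h2
    · simpa [e2] using h3

end

/-- **Theorem.** If a strong two-step walk `a ⇒ b ⇒ c` (at least two labels on each edge) with
`{a, c}` carrying at most one label is only possible when both edges carry exactly two labels,
`a` is rainbow reachable from `b` and `b` is rainbow reachable from `c`, then the conjecture
holds. -/
theorem result (V : Type) [Fintype V] [Nonempty V] (k : ℕ) (E : Fin k → V → V → Prop)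
    (hloop : ∀ i v, ¬ E i v v)
    (H : ∀ a b c : V, a ≠ c → 2 ≤ labels E a b → 2 ≤ labels E b c →
      labels E a c + labels E c a ≤ 1 →
      (labels E a b = 2 ∧ Reach E b a) ∧ (labels E b c = 2 ∧ Reach E c b)) :
    RainbowCycle E ∨
    ∃ v : V, ∑ i : Fin k, Set.ncard {w : V | E i v w} ≤ Set.ncard {w : V | Reach E v w} := by
  classical
  by_cases hC : RainbowCycle E
  · exact Or.inl hC
  refine Or.inr ?_
  -- basic facts
  have hne : ∀ {x y : V}, 1 ≤ labels E x y → y ≠ x := by
    intro x y h hxy
    obtain ⟨i, hi⟩ := exists_label h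
    rw [hxy] at hi
    exact hloop i x hi
  have hne' : ∀ {x y : V} {i : Fin k}, E i x y → y ≠ x := fun h => hne (labels_pos h)
  have hback : ∀ {x y : V}, 2 ≤ labels E x y → ∀ j, ¬ E j y x := by
    intro x y h j hj
    obtain ⟨i, hij, hi⟩ := exists_ne_label h j
    exact hC (cycle_two (hne' hi) hij hi hj)
  have hback0 : ∀ {x y : V}, 2 ≤ labels E x y → labels E y x = 0 := fun h =>
    labels_eq_zero (hback h)
  let D : V → V → Prop := fun x y => 2 ≤ labels E x y
  have hDD : ∀ {x y : V}, D x y → ¬ D y x := by
    intro x y h h'
    have h1 := hback0 h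
    have h2 : 2 ≤ labels E y x := h'
    omega
  have hDself : ∀ x, ¬ D x x := fun x h => hDD h h
  let A : V → V → ℝ := fun x y => (if D x y then 1 else 0) - (if D y x then 1 else 0)
  have hA : ∀ x y, A x y = - A y x := fun x y => by simp only [A]; ring
  -- domination gives the comparison of rows
  have hdom : ∀ x v : V, D x v → (∀ u, D v u → D x u) → (∀ u, D u x → D u v) →
      ∀ u, A v u + (if u = v then 1 else 0) + (if u = x then 1 else 0) ≤ A x u := by
    intro x v hxv h1 h2 u
    have hvx : ¬ D v x := hDD hxv
    have hxv' : x ≠ v := fun h => hDself v (by rw [h] at hxv; exact hxv)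
    by_cases huv : u = v
    · subst huv
      have : u ≠ x := fun h => hxv' h.symm
      simp [A, hxv, hvx, this]
    · by_cases hux : u = x
      · subst hux
        simp [A, hxv, hvx, huv]
      · by_cases a1 : D v u
        · have b1 := h1 u a1
          have b2 := hDD a1
          have b3 := hDD b1
          simp [A, a1, b1, b2, b3, huv, hux]
        · by_cases a2 : D u x
          · have b1 := h2 u a2
            have b3 := hDD a2
            simp [A, a1, a2, b1, b3, huv, hux]
          · by_cases a3 : D x u <;> by_cases a4 : D u v <;> simp [A, a1, a2, a3, a4, huv, hux]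
  -- unreachable back edges give domination
  have hUdom : ∀ x v : V, D x v → ¬ Reach E v x →
      (∀ u, D v u → D x u) ∧ (∀ u, D u x → D u v) := by
    intro x v hxv hR
    have hvx : v ≠ x := hne (le_trans (by norm_num) hxv)
    constructor
    · intro u hvu
      have hux : u ≠ x := fun h => hDD hxv (by rw [h] at hvu; exact hvu)
      have huv : u ≠ v := hne (le_trans (by norm_num) hvu)
      have h0 : ∀ j, ¬ E j u x := by
        intro j hj
        obtain ⟨i, hij, hi⟩ := exists_ne_label hvu j
        exact hR (reach_two huv hvx.symm hux.symm hij hi hj)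
      have h1 := labels_eq_zero h0
      by_contra hcon
      have hcon' : ¬ (2 ≤ labels E x u) := hcon
      have := (H x v u hux.symm hxv hvu (by omega)).1.2
      exact hR this
    · intro u hux
      have huv : u ≠ v := fun h => hDD hxv (by rw [h] at hux; exact hux)
      have hux' : x ≠ u := hne (le_trans (by norm_num) hux)
      have h0 : ∀ j, ¬ E j v u := by
        intro j hj
        obtain ⟨i, hij, hi⟩ := exists_ne_label hux j
        exact hR (reach_two huv hvx.symm hux' (Ne.symm hij) hj hi)
      have h1 := labels_eq_zero h0
      by_contra hcon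
      have hcon' : ¬ (2 ≤ labels E u v) := hcon
      have := (H u x v huv hux hxv (by omega)).2.2
      exact hR this
  -- edges with at least three labels give domination
  have h3dom : ∀ x y : V, 3 ≤ labels E x y →
      (∀ u, D y u → D x u) ∧ (∀ u, D u x → D u y) := by
    intro x y h3
    have hxy : D x y := le_trans (by norm_num) h3
    have hyx : y ≠ x := hne (le_trans (by norm_num) h3)
    constructor
    · intro u hyu
      have hux : u ≠ x := fun h => hDD hxy (by rw [h] at hyu; exact hyu)
      have huy : u ≠ y := hne (le_trans (by norm_num) hyu)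
      have h0 : ∀ j, ¬ E j u x := by
        intro j hj
        obtain ⟨i, hij, hi⟩ := exists_ne_label hyu j
        obtain ⟨a, hai, haj, ha⟩ := exists_ne_ne_label h3 i j
        exact hC (cycle_three hyx hux huy hai haj hij ha hi hj)
      have h1 := labels_eq_zero h0
      by_contra hcon
      have hcon' : ¬ (2 ≤ labels E x u) := hcon
      have := (H x y u hux.symm hxy hyu (by omega)).1.1
      omega
    · intro u hux
      have huy : u ≠ y := fun h => hDD hxy (by rw [h] at hux; exact hux)
      have hux' : x ≠ u := hne (le_trans (by norm_num) hux)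
      have h0 : ∀ j, ¬ E j y u := by
        intro j hj
        obtain ⟨i, hij, hi⟩ := exists_ne_label hux j
        obtain ⟨a, hai, haj, ha⟩ := exists_ne_ne_label h3 i j
        exact hC (cycle_three hyx hux'.symm huy haj hai (Ne.symm hij) ha hj hi)
      have h1 := labels_eq_zero h0
      by_contra hcon
      have hcon' : ¬ (2 ≤ labels E u y) := hcon
      have := (H u x y huy hux hxy (by omega)).2.1
      omega
  -- the losing strategy
  obtain ⟨l, hl0, hl1, hAl⟩ := exists_strategy A hA
  have hslack := slack A hA l hl0 hAl
  -- comparison of rows, summed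
  have hrow : ∀ x v : V, D x v → (∀ u, D v u → D x u) → (∀ u, D u x → D u v) →
      (∑ u, A v u * l u) + l v + l x ≤ ∑ u, A x u * l u := by
    intro x v hxv h1 h2
    have h3 : ∑ u, (A v u + (if u = v then 1 else 0) + (if u = x then 1 else 0)) * l u
        ≤ ∑ u, A x u * l u :=
      sum_le_sum fun u _ => mul_le_mul_of_nonneg_right (hdom x v hxv h1 h2 u) (hl0 u)
    have h4 : ∑ u, (A v u + (if u = v then 1 else 0) + (if u = x then 1 else 0)) * l u
        = (∑ u, A v u * l u) + l v + l x := by
      simp only [add_mul, sum_add_distrib, ite_mul, one_mul, zero_mul, sum_ite_eq', mem_univ,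
        if_true]
    linarith
  have claim1 : ∀ x, 0 < l x → ∀ y, labels E x y ≤ 2 := by
    intro x hx y
    by_contra hcon
    push Not at hcon
    have h3 : 3 ≤ labels E x y := hcon
    obtain ⟨h1, h2⟩ := h3dom x y h3
    have h4 := hrow x y (le_trans (by norm_num) h3) h1 h2
    have h5 := hslack x hx
    have h6 := hAl y
    have h7 := hl0 y
    linarith
  let U : V → V → Prop := fun x v => D x v ∧ ¬ Reach E v x
  have claim2 : ∀ x, ∑ v, (if U x v then l v else 0) ≤ ∑ u, A x u * l u := by
    intro x
    set w : V → ℝ := fun v => if U x v then l v else 0 with hw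
    have hw0 : ∀ v, 0 ≤ w v := by
      intro v; simp only [hw]; split_ifs
      · exact hl0 v
      · exact le_rfl
    set Λ := ∑ v, w v with hΛ
    have hΛ0 : 0 ≤ Λ := sum_nonneg fun v _ => hw0 v
    rcases eq_or_lt_of_le hΛ0 with h0 | hpos
    · rw [← h0]; exact hAl x
    · have hv : ∀ v, w v * (Λ - ∑ u, A v u * w u) ≤ w v * ∑ u, A x u * l u := by
        intro v
        by_cases hU : U x v
        · refine mul_le_mul_of_nonneg_left ?_ (hw0 v)
          obtain ⟨d1, d2⟩ := hUdom x v hU.1 hU.2
          have hd := hdom x v hU.1 d1 d2
          have h1 : ∀ u, A v u * l u + (w u - A v u * w u) ≤ A x u * l u := by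
            intro u
            by_cases hu : U x u
            · have e1 : A x u = 1 := by
                simp [A, hu.1, hDD hu.1]
              have e2 : w u = l u := by simp [hw, hu]
              rw [e1, e2]; linarith
            · have e2 : w u = 0 := by simp [hw, hu]
              rw [e2]
              have h5 := hd u
              have h6 : A v u ≤ A x u := by
                have : (0:ℝ) ≤ (if u = v then 1 else 0) := by split_ifs <;> norm_num
                have : (0:ℝ) ≤ (if u = x then 1 else 0) := by split_ifs <;> norm_num
                linarith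
              have := mul_le_mul_of_nonneg_right h6 (hl0 u)
              linarith
          have h2 := sum_le_sum fun u (_ : u ∈ univ) => h1 u
          rw [sum_add_distrib, sum_sub_distrib] at h2
          have h3 := hAl v
          linarith
        · have e2 : w v = 0 := by simp [hw, hU]
          rw [e2]; simp
      have h1 := sum_le_sum fun v (_ : v ∈ univ) => hv v
      have h2 : ∑ v, w v * (Λ - ∑ u, A v u * w u) = Λ * Λ := by
        simp only [mul_sub, sum_sub_distrib]
        rw [quad_zero A hA w, ← sum_mul]
        ring
      rw [h2, ← sum_mul] at h1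
      exact le_of_mul_le_mul_left h1 hpos
  -- conclusion
  by_contra hcon
  push Not at hcon
  have hdeg : ∀ v, ∑ i : Fin k, Set.ncard {w : V | E i v w} = ∑ w, labels E v w := by
    intro v
    have e1 : ∀ i : Fin k, Set.ncard {w : V | E i v w} = ∑ w, if E i v w then 1 else 0 := by
      intro i
      rw [Set.ncard_eq_toFinset_card', Finset.card_eq_sum_ones, ← Finset.sum_filter]
      congr 1
      ext w; simp
    have e2 : ∀ w : V, labels E v w = ∑ i : Fin k, if E i v w then 1 else 0 := by
      intro w
      unfold labels
      rw [Set.ncard_eq_toFinset_card', Finset.card_eq_sum_ones, ← Finset.sum_filter]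
      congr 1
      ext w; simp
    rw [sum_congr rfl fun i _ => e1 i, sum_congr rfl fun w _ => e2 w, sum_comm]
  have hreach : ∀ v, Set.ncard {w : V | Reach E v w} = ∑ w, if Reach E v w then 1 else 0 := by
    intro v
    rw [Set.ncard_eq_toFinset_card', Finset.card_eq_sum_ones, ← Finset.sum_filter]
    congr 1
    ext w; simp
  have hgap : ∀ v, l v ≤ l v * ∑ w, (A v w + (if U w v then 1 else 0)) := by
    intro v
    rcases eq_or_lt_of_le (hl0 v) with h0 | hpos
    · rw [← h0]; simp
    · have h1 : (1:ℝ) ≤ ∑ w, (A v w + (if U w v then 1 else 0)) := by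
        have h2 := hcon v
        rw [hdeg v, hreach v] at h2
        have h3 : (∑ w, (if Reach E v w then (1:ℝ) else 0)) + 1 ≤ ∑ w, (labels E v w : ℝ) := by
          have : ((∑ w, (if Reach E v w then 1 else 0) + 1 : ℕ) : ℝ) ≤
              ((∑ w, labels E v w : ℕ) : ℝ) := by exact_mod_cast h2
          simpa using this
        have h4 : ∀ w, (labels E v w : ℝ) - (if Reach E v w then (1:ℝ) else 0)
            ≤ A v w + (if U w v then 1 else 0) := by
          intro w
          have hle := claim1 v hpos w
          have hcases : labels E v w = 0 ∨ labels E v w = 1 ∨ labels E v w = 2 := by omega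
          rcases hcases with h | h | h
          · have hD : ¬ D v w := by
              intro h'; have : 2 ≤ labels E v w := h'; omega
            by_cases hwv : D w v
            · by_cases hr : Reach E v w
              · simp [A, U, h, hD, hwv, hr]
              · simp [A, U, h, hD, hwv, hr]
            · have hU : ¬ U w v := fun hh => hwv hh.1
              rw [h, if_neg hU]
              simp only [A, if_neg hD, if_neg hwv]
              split_ifs <;> norm_num
          · have hD : ¬ D v w := by
              intro h'; have : 2 ≤ labels E v w := h'; omega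
            have hDw : ¬ D w v := by
              intro h'
              have := hback0 h'
              omega
            obtain ⟨i, hi⟩ := exists_label (le_of_eq h.symm)
            have hr : Reach E v w := reach_one (hne' hi) hi
            have hU : ¬ U w v := fun hh => hDw hh.1
            rw [h, if_neg hU, if_pos hr]
            simp [A, hD, hDw]
          · have hD : D v w := le_of_eq h.symm
            have hDw : ¬ D w v := hDD hD
            obtain ⟨i, hi⟩ := exists_label (le_trans (by norm_num) (le_of_eq h.symm))
            have hr : Reach E v w := reach_one (hne' hi) hi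
            have hU : ¬ U w v := fun hh => hDw hh.1
            rw [h, if_neg hU, if_pos hr]
            simp only [A, if_pos hD, if_neg hDw]
            norm_num
        have h5 := sum_le_sum fun w (_ : w ∈ univ) => h4 w
        rw [sum_sub_distrib] at h5
        linarith
      have := mul_le_mul_of_nonneg_left h1 (hl0 v)
      linarith
  have h1 := sum_le_sum fun v (_ : v ∈ univ) => hgap v
  rw [hl1] at h1
  have h2 : ∑ v, l v * ∑ w, (A v w + (if U w v then 1 else 0))
      = ∑ w, ((∑ v, (if U w v then l v else 0)) - ∑ v, A w v * l v) := by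
    have e1 : ∀ v, l v * ∑ w, (A v w + (if U w v then 1 else 0))
        = ∑ w, ((if U w v then l v else 0) - A w v * l v) := by
      intro v
      rw [mul_sum]
      refine sum_congr rfl fun w _ => ?_
      rw [hA v w]
      split_ifs <;> ring
    rw [sum_congr rfl fun v _ => e1 v, sum_comm]
    refine sum_congr rfl fun w _ => ?_
    rw [sum_sub_distrib]
  rw [h2] at h1
  have h3 : ∑ w, ((∑ v, (if U w v then l v else 0)) - ∑ v, A w v * l v) ≤ 0 :=
    sum_nonpos fun w _ => by linarith [claim2 w]
  linarith

end Pool.Agent.Results.MP_1e81c0_co.QuasiTransitive
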